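import Pool.Agent.Helper82.TK.Index2

/-!
# Contraction of a frame: one split vertex and one real edge

`G' ≤ G`, `G' - z` is balanced with potential `κ` (`Z = spG G' 1 κ {z}` is the graph in which `z` is
split into its two colour copies), `g g2` is an edge of `G` with `κ g = κ g2`. A coloured frame of
`Z` for the pairing `{z^0 z^1 | g g2}` gives a TOK4 of `G`.
-/

set_option autoImplicit false

namespace Pool.Agent.Helper73.O3

open SimpleGraph Pool.Agent.Helper57.TOK Pool.Agent.Helper57.TD Pool.Agent.Helper82.TK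

variable {V : Type*}

/-- The two virtual edges. -/
def VtE (κ : V → ZMod 2) (z g g2 : V) (e : Sym2 (V × ZMod 2)) : Prop :=
  e = s((z, 0), (z, 1)) ∨ e = s(lft κ g, lft κ g2)

/-- CONTRACTION LEMMA for one split vertex and one real edge. -/
theorem tok_of_split_edge {G G' : SimpleGraph V} (hle : G' ≤ G) {κ : V → ZMod 2} {z g g2 : V}
    (hzg : z ≠ g) (hzg2 : z ≠ g2) (hgg : G.Adj g g2) (hk : κ g = κ g2)
    (hF : FrameE (spG G' (fun _ => 1) κ {z}) Prod.snd (z, 0) (z, 1) (lft κ g) (lft κ g2)) :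
    HasTOK4s G (fun _ => 1) := by
  classical
  set Z := spG G' (fun _ => 1) κ {z} with hZ
  unfold FrameE at hF
  rw [hasTOK4s_iff_isTOK] at hF
  obtain ⟨v, P, h⟩ := hF
  have hcase : ∀ x y, (frameG Z (z, 0) (z, 1) (lft κ g) (lft κ g2)).Adj x y →
      Z.Adj x y ∨ VtE κ z g g2 s(x, y) := by
    rintro x y ⟨hne, h4⟩
    exact h4
  have hVn : ∀ x y, VtE κ z g g2 s(x, y) → ¬ Z.Adj x y := by
    intro x y h1 h2
    have h3 := h2.2.1
    rcases h1 with h1 | h1 <;> rw [Sym2.eq_iff] at h1 <;> rcases h1 with ⟨rfl, rfl⟩ | ⟨rfl, rfl⟩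
    · exact h2.1.ne rfl
    · exact h2.1.ne rfl
    · have : κ g + κ g2 = 1 := h3
      rw [hk, zz] at this
      exact zero_ne_one this
    · have : κ g2 + κ g = 1 := h3
      rw [hk, zz] at this
      exact zero_ne_one this
  have hcons : ∀ x y, (frameG Z (z, 0) (z, 1) (lft κ g) (lft κ g2)).Adj x y →
      ¬ VtE κ z g g2 s(x, y) → cE Z Prod.snd s(x, y) = x.2 + y.2 := by
    intro x y hxy hn
    rcases hcase x y hxy with h1 | h1
    · exact cE_of_adj h1
    · exact absurd h1 hn
  have hsupp : ∀ x, x ∈ supp (frameG Z (z, 0) (z, 1) (lft κ g) (lft κ g2)) →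
      x.1 = z ∨ x.2 = κ x.1 := by
    rintro x ⟨y, hy⟩
    by_cases hx : x.1 = z
    · exact Or.inl hx
    · right
      rcases hcase x y hy with h1 | h1
      · exact h1.2.2.1 hx
      · rcases h1 with h1 | h1 <;> rw [Sym2.eq_iff] at h1 <;>
          rcases h1 with ⟨rfl, rfl⟩ | ⟨rfl, rfl⟩
        · exact absurd rfl hx
        · exact absurd rfl hx
        · rfl
        · rfl
  have hused : ∃ i j : Fin 4, i < j ∧ s((z, (0 : ZMod 2)), (z, (1 : ZMod 2))) ∈ (P i j).edges := by
    obtain ⟨a, b, d, f, hab, -, -, -, -, -, h1, -⟩ := h.two_virt (κ := Prod.snd)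
      (Vt := VtE κ z g g2) hcons (f1 := s((z, 0), (z, 1))) (f2 := s(lft κ g, lft κ g2))
      (fun i j _ e _ h3 => h3)
    exact ⟨a, b, hab, h1⟩
  refine h.project Prod.fst ?_ ?_
  · intro x y hxy
    rcases hcase x y hxy with h1 | h1
    · left
      refine ⟨hle h1.1, ?_⟩
      rw [cE_of_adj h1]
      exact h1.2.1
    · have hn := hVn x y h1
      rw [cE_of_not_adj hn]
      rcases h1 with h1 | h1 <;> rw [Sym2.eq_iff] at h1 <;> rcases h1 with ⟨rfl, rfl⟩ | ⟨rfl, rfl⟩
      · right
        refine ⟨rfl, ?_⟩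
        show (1 : ZMod 2) + 0 + 1 = 0
        decide
      · right
        refine ⟨rfl, ?_⟩
        show (1 : ZMod 2) + 1 + 0 = 0
        decide
      · left
        refine ⟨hgg, ?_⟩
        show 1 + κ g + κ g2 = 1
        rw [hk, add_assoc, zz, add_zero]
      · left
        refine ⟨hgg.symm, ?_⟩
        show 1 + κ g2 + κ g = 1
        rw [hk, add_assoc, zz, add_zero]
  · intro x y hx hy hne hxy
    obtain ⟨a, i⟩ := x
    obtain ⟨b, j⟩ := y
    simp only at hxy
    subst hxy
    have hij : i ≠ j := fun hh => hne (by rw [hh])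
    have hD : a = z := by
      rcases hsupp _ hx with h1 | h1
      · exact h1
      · rcases hsupp _ hy with h2 | h2
        · exact h2
        · exact absurd (h1.trans h2.symm) hij
    subst hD
    have key : s((a, i), (a, j)) = s((a, (0 : ZMod 2)), (a, (1 : ZMod 2))) := by
      rcases zmod2_cases i with rfl | rfl <;> rcases zmod2_cases j with rfl | rfl
      · exact absurd rfl hij
      · rfl
      · exact Sym2.eq_swap
      · exact absurd rfl hij
    rw [key]
    exact hused

end Pool.Agent.Helper73.O3
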